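import Pool.Agent.Helper40.RGC.Dist

/-!
# RGC-Bip: bipartite radio graceful graphs

`Col G c`: `c` is a proper colouring with two colours. In a connected graph the distance of `u` and
`v` is even iff `c u = c v`.
-/

namespace Pool.Agent.Helper40.RGC

open Finset SimpleGraph

variable {V : Type*} [Fintype V] {G : SimpleGraph V} {r : ℕ} {c : V → Bool}

omit [Fintype V] in
theorem walk_parity (hc : ∀ u v, G.Adj u v → c u ≠ c v) {u v : V} (w : G.Walk u v) :
    Even w.length ↔ c u = c v := by
  induction w with
  | nil => simp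
  | @cons a b d h w ih =>
    rw [Walk.length_cons, Nat.even_add_one, ih]
    have h1 := hc a b h
    constructor
    · intro h2
      revert h1 h2
      cases c a <;> cases c b <;> cases c d <;> simp
    · intro h2 h3
      rw [h2, h3] at h1
      exact h1 rfl

omit [Fintype V] in
theorem dist_parity (hconn : G.Connected) (hc : ∀ u v, G.Adj u v → c u ≠ c v) (u v : V) :
    Even (G.dist u v) ↔ c u = c v := by
  obtain ⟨w, hw⟩ := hconn.exists_walk_length_eq_dist u v
  rw [← hw]
  exact walk_parity hc w

/-- colour classes -/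
def cls [DecidableEq V] (c : V → Bool) (b : Bool) : Finset V := univ.filter fun u => c u = b

theorem cls_add [DecidableEq V] (c : V → Bool) :
    (cls c true).card + (cls c false).card = Fintype.card V := by
  have h := Finset.card_filter_add_card_filter_not (s := (univ : Finset V)) (fun u => c u = true)
  rw [card_univ] at h
  rw [← h]
  unfold cls
  congr 2
  ext u
  simp

/-- the vertices with the labels `1, ..., n` -/
theorem exists_order {f : V → ℕ} (h1 : ∀ v, 1 ≤ f v ∧ f v ≤ Fintype.card V)
    (h2 : Function.Injective f) : ∀ k, 1 ≤ k → k ≤ Fintype.card V → ∃ v, f v = k := by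
  classical
  have h3 : univ.image f = Icc 1 (Fintype.card V) := by
    apply eq_of_subset_of_card_le
    · intro k hk
      obtain ⟨v, -, rfl⟩ := mem_image.1 hk
      exact mem_Icc.2 (h1 v)
    · rw [card_image_of_injective _ h2, Nat.card_Icc, card_univ]
      omega
  intro k hk1 hk2
  have h4 : k ∈ univ.image f := by
    rw [h3, mem_Icc]
    exact ⟨hk1, hk2⟩
  obtain ⟨v, -, hv⟩ := mem_image.1 h4
  exact ⟨v, hv⟩

/-- an odd number is the diameter -/
theorem diam_odd (hconn : G.Connected) (hc : ∀ u v, G.Adj u v → c u ≠ c v)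
    (hr : Rg G r) (h0 : 0 < r) (hrg : RadioGraceful G) : Odd G.diam := by
  obtain ⟨f, hf1, hf2⟩ := hrg
  obtain ⟨x0⟩ := hconn.nonempty
  have : Nonempty V := ⟨x0⟩
  have hD : ∀ {u v : V}, G.dist u v ≤ G.diam := fun {u v} =>
    SimpleGraph.dist_le_diam (connected_iff_ediam_ne_top.1 hconn)
  have hinj : Function.Injective f := by
    intro u v huv
    by_contra hne
    have h1 := hf2 u v hne
    rw [huv, Nat.dist_self] at h1
    have := hD (u := u) (v := v)
    omega
  have hord := exists_order hf1 hinj
  rw [← Nat.not_even_iff_odd]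
  intro heven
  -- all vertices have the same colour
  have h3 : ∀ k, ∀ u v, f u = 1 → f v = 1 + k → c u = c v := by
    intro k
    induction k with
    | zero =>
      intro u v hu hv
      rw [hinj (hu.trans hv.symm)]
    | succ k ih =>
      intro u v hu hv
      have h4 := hf1 v
      obtain ⟨w, hw⟩ := hord (1 + k) (by omega) (by omega)
      have h5 := ih u w hu hw
      have hne : w ≠ v := by
        rintro rfl
        omega
      have h6 := hf2 w v hne
      rw [hw, hv] at h6
      have h7 : Nat.dist (1 + k) (1 + (k + 1)) = 1 := by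
        unfold Nat.dist
        omega
      rw [h7] at h6
      have h8 := hD (u := w) (v := v)
      have h9 : G.dist w v = G.diam := by omega
      rw [h5]
      exact (dist_parity hconn hc w v).1 (h9 ▸ heven)
  have hn : 0 < Fintype.card V := Fintype.card_pos
  obtain ⟨u, hu⟩ := hord 1 le_rfl hn
  have h10 : ∀ v, c u = c v := fun v => h3 (f v - 1) u v hu (by have := hf1 v; omega)
  obtain ⟨w, hw⟩ := exists_adj hr h0 u
  exact hc u w hw (h10 w)

/-- diameter 3 -/
theorem card_diam_three (hC : C6 G) (hconn : G.Connected) (hc : ∀ u v, G.Adj u v → c u ≠ c v)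
    (hr : Rg G r) (h0 : 0 < r) (hD : ∀ u v, G.dist u v ≤ 3) :
    Fintype.card V = 2 * (r * (r - 1) + 1) := by
  classical
  obtain ⟨x⟩ := hconn.nonempty
  have h1 : ∀ x, cls c (c x) = PP G x := by
    intro x
    ext u
    unfold cls
    rw [mem_filter]
    constructor
    · rintro ⟨-, h2⟩
      have h3 := (dist_parity hconn hc u x).2 h2
      have h4 := hD u x
      have h5 : G.dist u x = 0 ∨ G.dist u x = 2 := by
        obtain ⟨k, hk⟩ := h3
        omega
      rcases h5 with h5 | h5
      · rw [hconn.dist_eq_zero_iff] at h5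
        rw [h5]
        exact self_mem_PP hr h0 x
      · obtain ⟨w, hw⟩ := hconn.exists_walk_length_eq_dist u x
        rw [h5] at hw
        cases w with
        | nil => simp at hw
        | cons h6 w =>
          cases w with
          | nil => simp at hw
          | cons h7 w =>
            cases w with
            | nil => exact mem_PP.2 ⟨_, h6, h7⟩
            | cons h8 w => simp at hw
    · intro h2
      refine ⟨mem_univ _, ?_⟩
      obtain ⟨w, h3, h4⟩ := mem_PP.1 h2
      have h5 := hc u w h3
      have h6 := hc w x h4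
      revert h5 h6
      cases c u <;> cases c w <;> cases c x <;> simp
  obtain ⟨x', hx'⟩ := exists_adj hr h0 x
  have h2 := hc x x' hx'
  have h3 := cls_add c
  have h4 := congrArg card (h1 x)
  have h5 := congrArg card (h1 x')
  rw [PP_card hC hr h0] at h4 h5
  revert h2 h4 h5
  cases c x <;> cases c x' <;> simp <;> intro h4 h5 <;> omega

/-- one side in diameter 5 -/
theorem side_five (hC : C6 G) (hconn : G.Connected) (hc : ∀ u v, G.Adj u v → c u ≠ c v)
    (hr : Rg G r) (h0 : 0 < r) (hD : ∀ u v, G.dist u v ≤ 5) {a b y d e : V}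
    (hab : 5 ≤ G.dist a b) (hay : 4 ≤ G.dist a y) (had : 3 ≤ G.dist a d) (hae : 2 ≤ G.dist a e)
    (hby : 5 ≤ G.dist b y) (hbd : 4 ≤ G.dist b d) (hbe : 3 ≤ G.dist b e)
    (hyd : 5 ≤ G.dist y d) (hye : 4 ≤ G.dist y e) (hde : 5 ≤ G.dist d e) [DecidableEq V] :
    r * (r - 1) + 1 + 2 * r + 2 ≤ (cls c (c y)).card := by
  have hpar := dist_parity hconn hc
  have hopp : ∀ {u v : V}, 5 ≤ G.dist u v → c u ≠ c v := by
    intro u v h1 h2
    have h3 := (hpar u v).2 h2
    have h4 := hD u v
    have h5 : G.dist u v = 5 := le_antisymm h4 h1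
    rw [h5] at h3
    exact absurd h3 (by decide)
  have hsame : ∀ {u v w : V}, c u ≠ c v → c v ≠ c w → c u = c w := by
    intro u v w
    cases c u <;> cases c v <;> cases c w <;> simp
  have tri := fun u v w => hconn.dist_triangle (u := u) (v := v) (w := w)
  have hsym : ∀ u v, G.dist u v = G.dist v u := fun u v => SimpleGraph.dist_comm
  have ha : c a = c y := hsame (hopp hab) (hopp hby)
  have he : c e = c y := by
    have := hsame (hopp hyd) (hopp hde)
    exact this.symm
  have hNb : ∀ u ∈ NN G b, c u = c y := fun u hu =>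
    hsame (hc u b (mem_NN.1 hu).symm) (hopp hby)
  have hNd : ∀ u ∈ NN G d, c u = c y := fun u hu => by
    have h1 := hopp hyd
    exact hsame (hc u d (mem_NN.1 hu).symm) h1.symm
  have hP : ∀ u ∈ PP G y, c u = c y := by
    intro u hu
    obtain ⟨w, h3, h4⟩ := mem_PP.1 hu
    exact hsame (hc u w h3) (hc w y h4)
  have hd1 : Disjoint (PP G y) (NN G b) := by
    rw [Finset.disjoint_left]
    intro u hu hu'
    have h1 := dist_PP hu
    have h2 := dist_adj_le (mem_NN.1 hu')
    have h3 := tri b u y
    omega
  have hd2 : Disjoint (PP G y ∪ NN G b) (NN G d) := by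
    rw [Finset.disjoint_left]
    intro u hu hu'
    have h2 := dist_adj_le (mem_NN.1 hu')
    rw [mem_union] at hu
    rcases hu with hu | hu
    · have h1 := dist_PP hu
      have h3 := tri d u y
      have h4 := hsym d y
      omega
    · have h1 := dist_adj_le (mem_NN.1 hu)
      have h3 := tri b u d
      have h4 := hsym u d
      omega
  have hna : a ∉ PP G y ∪ NN G b ∪ NN G d := by
    rw [mem_union, mem_union]
    rintro ((hu | hu) | hu)
    · have := dist_PP hu
      omega
    · have h1 := dist_adj_le (mem_NN.1 hu)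
      have := hsym a b
      omega
    · have h1 := dist_adj_le (mem_NN.1 hu)
      have := hsym a d
      omega
  have hne : e ∉ insert a (PP G y ∪ NN G b ∪ NN G d) := by
    rw [mem_insert, mem_union, mem_union]
    rintro (hu | (hu | hu) | hu)
    · rw [hu, SimpleGraph.dist_self] at hae
      omega
    · have := dist_PP hu
      have := hsym y e
      omega
    · have h1 := dist_adj_le (mem_NN.1 hu)
      omega
    · have h1 := dist_adj_le (mem_NN.1 hu)
      omega
  have hsub : insert e (insert a (PP G y ∪ NN G b ∪ NN G d)) ⊆ cls c (c y) := by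
    intro u hu
    unfold cls
    rw [mem_filter]
    refine ⟨mem_univ _, ?_⟩
    rw [mem_insert, mem_insert, mem_union, mem_union] at hu
    rcases hu with hu | hu | (hu | hu) | hu
    · rw [hu]; exact he
    · rw [hu]; exact ha
    · exact hP u hu
    · exact hNb u hu
    · exact hNd u hu
  have h1 := card_le_card hsub
  rw [card_insert_of_notMem hne, card_insert_of_notMem hna, card_union_of_disjoint hd2,
    card_union_of_disjoint hd1, PP_card hC hr h0, hr b, hr d] at h1
  omega

/-- diameter 5 -/
theorem card_diam_five (hC : C6 G) (hconn : G.Connected) (hc : ∀ u v, G.Adj u v → c u ≠ c v)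
    (hr : Rg G r) (h2r : 2 ≤ r) (hdiam : G.diam = 5) (hrg : RadioGraceful G) :
    2 * (r * (r - 1) + 1 + 2 * r + 2) ≤ Fintype.card V := by
  classical
  obtain ⟨f, hf1, hf2⟩ := hrg
  obtain ⟨x0⟩ := hconn.nonempty
  have : Nonempty V := ⟨x0⟩
  have h0 : 0 < r := by omega
  have hD : ∀ u v : V, G.dist u v ≤ 5 := fun u v => by
    rw [← hdiam]
    exact SimpleGraph.dist_le_diam (connected_iff_ediam_ne_top.1 hconn)
  have hinj : Function.Injective f := by
    intro u v huv
    by_contra hne
    have h1 := hf2 u v hne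
    rw [huv, Nat.dist_self, hdiam] at h1
    have := hD u v
    omega
  have hord := exists_order hf1 hinj
  have hn : 6 ≤ Fintype.card V := by
    have h1 := two_P_le hC hr h0 x0
    have h2 : 2 * 1 ≤ r * (r - 1) := Nat.mul_le_mul h2r (by omega)
    omega
  obtain ⟨x1, h1⟩ := hord 1 (by omega) (by omega)
  obtain ⟨x2, h2⟩ := hord 2 (by omega) (by omega)
  obtain ⟨x3, h3⟩ := hord 3 (by omega) (by omega)
  obtain ⟨x4, h4⟩ := hord 4 (by omega) (by omega)
  obtain ⟨x5, h5⟩ := hord 5 (by omega) (by omega)
  obtain ⟨x6, h6⟩ := hord 6 (by omega) (by omega)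
  have key : ∀ {u v : V} {i j m : ℕ}, f u = i → f v = i + j → j + m = 6 → 0 < j →
      m ≤ G.dist u v := by
    intro u v i j m hu hv hjm hj
    have hne : u ≠ v := by
      rintro rfl
      omega
    have h7 := hf2 u v hne
    rw [hu, hv, hdiam] at h7
    have h8 : Nat.dist i (i + j) = j := by
      unfold Nat.dist
      omega
    omega
  have s3 := side_five hC hconn hc hr h0 hD (a := x1) (b := x2) (y := x3) (d := x4) (e := x5)
    (key h1 h2 rfl (by omega)) (key h1 h3 rfl (by omega)) (key h1 h4 rfl (by omega))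
    (key h1 h5 rfl (by omega)) (key h2 h3 rfl (by omega)) (key h2 h4 rfl (by omega))
    (key h2 h5 rfl (by omega)) (key h3 h4 rfl (by omega)) (key h3 h5 rfl (by omega))
    (key h4 h5 rfl (by omega))
  have s4 := side_five hC hconn hc hr h0 hD (a := x2) (b := x3) (y := x4) (d := x5) (e := x6)
    (key h2 h3 rfl (by omega)) (key h2 h4 rfl (by omega)) (key h2 h5 rfl (by omega))
    (key h2 h6 rfl (by omega)) (key h3 h4 rfl (by omega)) (key h3 h5 rfl (by omega))
    (key h3 h6 rfl (by omega)) (key h4 h5 rfl (by omega)) (key h4 h6 rfl (by omega))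
    (key h5 h6 rfl (by omega))
  have h7 : 5 ≤ G.dist x3 x4 := key h3 h4 rfl (by omega)
  have h8 : c x3 ≠ c x4 := by
    intro h9
    have h10 := (dist_parity hconn hc x3 x4).2 h9
    have h11 : G.dist x3 x4 = 5 := le_antisymm (hD _ _) h7
    rw [h11] at h10
    exact absurd h10 (by decide)
  have h9 := cls_add c
  revert s3 s4 h8
  cases c x3 <;> cases c x4 <;> simp <;> intro h10 h11 <;> omega

/-- The gap theorem. -/
theorem gap (hC : C6 G) (hconn : G.Connected) (hr : Rg G r) (h2r : 2 ≤ r)
    (hrg : RadioGraceful G) (h1 : 6 * Fintype.card V < 13 * (r * (r - 1) + 1))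
    (h2 : Fintype.card V < 2 * (r * (r - 1) + 1 + 2 * r + 2)) :
    Fintype.card V = 2 * (r * (r - 1) + 1) := by
  have h0 : 0 < r := by omega
  obtain ⟨c, hc⟩ := exists_coloring hC hconn hr h0 h1
  obtain ⟨x0⟩ := hconn.nonempty
  have : Nonempty V := ⟨x0⟩
  have hodd := diam_odd hconn hc hr h0 hrg
  have hle : ∀ u v : V, G.dist u v ≤ G.diam := fun u v =>
    SimpleGraph.dist_le_diam (connected_iff_ediam_ne_top.1 hconn)
  have h5 : G.diam ≤ 5 := by
    obtain ⟨u, v, huv⟩ := SimpleGraph.exists_dist_eq_diam (G := G)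
    rw [← huv]
    exact dist_lt_six hC hconn hr h0 (by omega) u v
  by_cases h6 : G.diam = 5
  · have := card_diam_five hC hconn hc hr h2r h6 hrg
    omega
  · have h7 : G.diam ≤ 3 := by
      obtain ⟨k, hk⟩ := hodd
      omega
    exact card_diam_three hC hconn hc hr h0 fun u v => (hle u v).trans h7

end Pool.Agent.Helper40.RGC
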