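import Pool.Agent.Helper40.RGC.Bip

/-!
# RGC-Cons: point-line graphs in the affine plane over a finite field

Points `p` with `X p`, lines `l` with `Y l`, incidence `p.1 l.1 + p.2 l.2 = 1`. Girth at least 6, and
exactly 6 if there is a hexagon.
-/

namespace Pool.Agent.Helper40.RGC

open Finset SimpleGraph

/-- girth at least 6 from `C6` -/
theorem egirth_of_c6 {V : Type*} {G : SimpleGraph V} (h : C6 G) : 6 ≤ G.egirth := by
  rw [SimpleGraph.le_egirth]
  intro a w hw
  have h3 := hw.three_le_length
  suffices 6 ≤ w.length by exact_mod_cast this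
  by_contra hcon
  push Not at hcon
  cases w with
  | nil => simp at h3
  | cons h1 w =>
    cases w with
    | nil => simp at h3
    | cons h2 w =>
      cases w with
      | nil => simp at h3
      | cons h4 w =>
        cases w with
        | nil => exact h.no3 _ _ _ h1 h2 h4
        | cons h5 w =>
          cases w with
          | nil =>
            rename_i b c d
            have hn := hw.support_nodup
            simp only [Walk.support_cons, Walk.support_nil, List.tail_cons, List.nodup_cons,
              List.mem_cons, List.not_mem_nil, or_false, not_or] at hn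
            have hac : a ≠ c := fun hh => hn.2.1.2 hh.symm
            exact hn.1.2.1 (h.no4 a c b d hac h1 h2.symm h5.symm h4)
          | cons h6 w =>
            cases w with
            | nil => exact h.no5 _ _ _ _ _ h1 h2 h4 h5 h6
            | cons h7 w =>
              simp only [Walk.length_cons] at hcon
              omega

/-- a hexagon -/
theorem egirth_le_six {V : Type*} {G : SimpleGraph V} {a b c d e f : V} (h1 : G.Adj a b)
    (h2 : G.Adj b c) (h3 : G.Adj c d) (h4 : G.Adj d e) (h5 : G.Adj e f) (h6 : G.Adj f a)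
    (hn : [a, b, c, d, e, f].Nodup) : G.egirth ≤ 6 := by
  simp only [List.nodup_cons, List.mem_cons, List.not_mem_nil, or_false, not_or,
    not_false_eq_true, List.nodup_nil, and_true] at hn
  obtain ⟨⟨n1, n2, n3, n4, n5⟩, ⟨n6, n7, n8, n9⟩, ⟨n10, n11, n12⟩, ⟨n13, n14⟩, n15⟩ := hn
  have hc : (Walk.cons h1 (Walk.cons h2 (Walk.cons h3 (Walk.cons h4 (Walk.cons h5
      (Walk.cons h6 Walk.nil)))))).IsCycle := by
    rw [Walk.cons_isCycle_iff]
    simp only [Walk.cons_isPath_iff, Walk.support_cons, Walk.support_nil, Walk.edges_cons,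
      Walk.edges_nil, List.mem_cons, List.not_mem_nil, or_false, not_or, Sym2.eq_iff,
      true_and]
    have m1 := Ne.symm n1
    have m2 := Ne.symm n2
    have m3 := Ne.symm n3
    have m4 := Ne.symm n4
    have m5 := Ne.symm n5
    have m6 := Ne.symm n6
    have m7 := Ne.symm n7
    have m8 := Ne.symm n8
    have m9 := Ne.symm n9
    have m10 := Ne.symm n10
    have m11 := Ne.symm n11
    have m12 := Ne.symm n12
    have m13 := Ne.symm n13
    have m14 := Ne.symm n14
    have m15 := Ne.symm n15
    simp [*]
  have h7 := (SimpleGraph.le_egirth (G := G) (n := G.egirth)).1 le_rfl a _ hc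
  simpa using h7

variable {K : Type} [Field K]

/-- the point-line graph -/
def PL (X Y : K × K → Prop) : SimpleGraph ({p : K × K // X p} ⊕ {l : K × K // Y l}) where
  Adj u v := match u, v with
    | Sum.inl p, Sum.inr l => p.1.1 * l.1.1 + p.1.2 * l.1.2 = 1
    | Sum.inr l, Sum.inl p => p.1.1 * l.1.1 + p.1.2 * l.1.2 = 1
    | _, _ => False
  symm := ⟨fun u v h => by rcases u with u | u <;> rcases v with v | v <;> exact h⟩
  loopless := ⟨fun u h => by rcases u with u | u <;> exact h⟩

variable {X Y : K × K → Prop}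

theorem pl_inl_inr {p : {p : K × K // X p}} {l : {l : K × K // Y l}} :
    (PL X Y).Adj (Sum.inl p) (Sum.inr l) ↔ p.1.1 * l.1.1 + p.1.2 * l.1.2 = 1 := Iff.rfl

theorem pl_inr_inl {p : {p : K × K // X p}} {l : {l : K × K // Y l}} :
    (PL X Y).Adj (Sum.inr l) (Sum.inl p) ↔ p.1.1 * l.1.1 + p.1.2 * l.1.2 = 1 := Iff.rfl

theorem pl_side {u v : {p : K × K // X p} ⊕ {l : K × K // Y l}} (h : (PL X Y).Adj u v) :
    u.isLeft ≠ v.isLeft := by
  rcases u with u | u <;> rcases v with v | v
  · exact absurd h id
  · simp
  · simp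
  · exact absurd h id

theorem pl_unique {p p' l l' : K × K} (hp : p ≠ p') (h1 : p.1 * l.1 + p.2 * l.2 = 1)
    (h2 : p'.1 * l.1 + p'.2 * l.2 = 1) (h3 : p.1 * l'.1 + p.2 * l'.2 = 1)
    (h4 : p'.1 * l'.1 + p'.2 * l'.2 = 1) : l = l' := by
  have e1 : (p.1 * p'.2 - p.2 * p'.1) * l.1 = p'.2 - p.2 := by
    linear_combination p'.2 * h1 - p.2 * h2
  have e2 : (p.1 * p'.2 - p.2 * p'.1) * l.2 = p.1 - p'.1 := by
    linear_combination -p'.1 * h1 + p.1 * h2
  have e3 : (p.1 * p'.2 - p.2 * p'.1) * l'.1 = p'.2 - p.2 := by
    linear_combination p'.2 * h3 - p.2 * h4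
  have e4 : (p.1 * p'.2 - p.2 * p'.1) * l'.2 = p.1 - p'.1 := by
    linear_combination -p'.1 * h3 + p.1 * h4
  have hne : p.1 * p'.2 - p.2 * p'.1 ≠ 0 := by
    intro h0
    rw [h0, zero_mul] at e1 e2
    exact hp (Prod.ext (sub_eq_zero.1 e2.symm) (sub_eq_zero.1 e1.symm).symm)
  exact Prod.ext (mul_left_cancel₀ hne (e1.trans e3.symm))
    (mul_left_cancel₀ hne (e2.trans e4.symm))

theorem pl_c6 : C6 (PL X Y) := by
  refine ⟨?_, ?_, ?_⟩
  · intro a b c h1 h2 h3
    have e1 := pl_side h1
    have e2 := pl_side h2
    have e3 := pl_side h3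
    revert e1 e2 e3
    cases a.isLeft <;> cases b.isLeft <;> cases c.isLeft <;> simp
  · intro a b c d hab h1 h2 h3 h4
    rcases a with a | a <;> rcases b with b | b <;> rcases c with c | c <;> rcases d with d | d
    all_goals first
      | exact absurd h1 id
      | exact absurd h2 id
      | exact absurd h3 id
      | exact absurd h4 id
      | skip
    · rw [pl_inl_inr] at h1 h2 h3 h4
      congr 1
      exact Subtype.ext (pl_unique (fun hh => hab (congrArg Sum.inl (Subtype.ext hh))) h1 h2 h3 h4)
    · rw [pl_inr_inl] at h1 h2 h3 h4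
      congr 1
      refine Subtype.ext (pl_unique (p := a.1) (p' := b.1)
        (fun hh => hab (congrArg Sum.inr (Subtype.ext hh))) ?_ ?_ ?_ ?_)
      · linear_combination h1
      · linear_combination h2
      · linear_combination h3
      · linear_combination h4
  · intro a b c d e h1 h2 h3 h4 h5
    have e1 := pl_side h1
    have e2 := pl_side h2
    have e3 := pl_side h3
    have e4 := pl_side h4
    have e5 := pl_side h5
    revert e1 e2 e3 e4 e5
    cases a.isLeft <;> cases b.isLeft <;> cases c.isLeft <;> cases d.isLeft <;> cases e.isLeft <;>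
      simp

end Pool.Agent.Helper40.RGC
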