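import Pool.Agent.Helper40.RGC.Defs

/-!
# RGC-Count: basic counting in a regular graph of girth at least 6
-/

namespace Pool.Agent.Helper40.RGC

open Finset

variable {V : Type*} [Fintype V] {G : SimpleGraph V} {r : ℕ}

theorem PP_symm {u v : V} : u ∈ PP G v ↔ v ∈ PP G u := by
  rw [mem_PP, mem_PP]
  constructor
  · rintro ⟨w, h1, h2⟩
    exact ⟨w, h2.symm, h1.symm⟩
  · rintro ⟨w, h1, h2⟩
    exact ⟨w, h2.symm, h1.symm⟩

theorem self_mem_PP (hr : Rg G r) (h0 : 0 < r) (v : V) : v ∈ PP G v := by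
  have h1 : 0 < (NN G v).card := by rw [hr v]; exact h0
  obtain ⟨w, hw⟩ := card_pos.1 h1
  rw [mem_NN] at hw
  exact mem_PP.2 ⟨w, hw, hw.symm⟩

theorem PP_card (hC : C6 G) (hr : Rg G r) (h0 : 0 < r) (v : V) :
    (PP G v).card = r * (r - 1) + 1 := by
  classical
  have e : PP G v = insert v ((NN G v).biUnion fun w => (NN G w).erase v) := by
    ext u
    rw [mem_PP, mem_insert, mem_biUnion]
    constructor
    · rintro ⟨w, h1, h2⟩
      by_cases h : u = v
      · exact Or.inl h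
      · exact Or.inr ⟨w, mem_NN.2 h2.symm, mem_erase.2 ⟨h, mem_NN.2 h1.symm⟩⟩
    · rintro (h | ⟨w, h1, h2⟩)
      · rw [h]
        exact mem_PP.1 (self_mem_PP hr h0 v)
      · exact ⟨w, (mem_NN.1 (mem_erase.1 h2).2).symm, (mem_NN.1 h1).symm⟩
  rw [e, card_insert_of_notMem, card_biUnion]
  · have h1 : ∀ w ∈ NN G v, ((NN G w).erase v).card = r - 1 := by
      intro w hw
      rw [card_erase_of_mem (mem_NN.2 (mem_NN.1 hw).symm), hr w]
    rw [sum_congr rfl h1, sum_const, hr v, smul_eq_mul]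
  · intro w hw w' hw' hne
    rw [Function.onFun, disjoint_left]
    intro u hu hu'
    rw [mem_coe] at hw hw'
    rw [mem_erase, mem_NN] at hu hu'
    exact hne (hC.no4 u v w w' hu.1 hu.2.symm (mem_NN.1 hw) hu'.2.symm (mem_NN.1 hw'))
  · rw [mem_biUnion]
    rintro ⟨w, -, h⟩
    exact (mem_erase.1 h).1 rfl

theorem TT_zero (hC : C6 G) {u v : V} (h : u ∈ PP G v) : TT G u v = 0 := by
  classical
  unfold TT
  rw [card_eq_zero, eq_empty_iff_forall_notMem]
  intro w hw
  rw [mem_inter, mem_NN, mem_PP] at hw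
  obtain ⟨h1, a, h2, h3⟩ := hw
  obtain ⟨b, h4, h5⟩ := mem_PP.1 h
  exact hC.no5 u w a v b h1 h2 h3 h5.symm h4.symm

theorem TT_add (hC : C6 G) (hr : Rg G r) (u : V) {v v' : V} (h : G.Adj v v') :
    TT G u v + TT G u v' ≤ r := by
  classical
  unfold TT
  rw [← hr u, ← card_union_of_disjoint]
  · exact card_le_card (union_subset inter_subset_left inter_subset_left)
  · rw [disjoint_left]
    intro w hw hw'
    rw [mem_inter, mem_PP] at hw hw'
    obtain ⟨-, a, h1, h2⟩ := hw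
    obtain ⟨-, b, h3, h4⟩ := hw'
    exact hC.no5 w a v v' b h1 h2 h h4.symm h3.symm

theorem TT_sum (hr : Rg G r) (v : V) : ∑ u, TT G u v = r * (PP G v).card := by
  classical
  have h1 : ∀ u, TT G u v = ∑ w ∈ PP G v, if G.Adj u w then 1 else 0 := by
    intro u
    unfold TT
    rw [card_eq_sum_ones, ← sum_filter]
    apply sum_congr _ fun _ _ => rfl
    ext w
    rw [mem_inter, mem_NN, mem_filter, and_comm]
  simp only [h1]
  rw [sum_comm]
  have h2 : ∀ w ∈ PP G v, ∑ u, (if G.Adj u w then 1 else 0) = r := by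
    intro w _
    rw [← sum_filter, ← card_eq_sum_ones, ← hr w]
    congr 1
    ext u
    rw [mem_filter, mem_NN]
    exact ⟨fun h => h.2.symm, fun h => ⟨mem_univ _, h.symm⟩⟩
  rw [sum_congr rfl h2, sum_const, smul_eq_mul, mul_comm]

end Pool.Agent.Helper40.RGC
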