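import Mathlib

/-!
# RGC (radio graceful cages of girth 6, MP_407bea_co): definitions

`C6 G`: no closed walk of length 3 or 5, and two different vertices have at most one common
neighbour (this is girth at least 6). `PP G v`: the vertices at distance 0 or 2 of `v` (they have a
common neighbour with `v`). `TT G u v`: number of the neighbours of `u` in `PP G v`.
-/

namespace Pool.Agent.Helper40.RGC

open Finset

/-- A radio labelling with the labels `1, ..., |V|`. -/
def RadioGraceful {V : Type*} [Fintype V] (G : SimpleGraph V) : Prop :=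
  ∃ f : V → ℕ, (∀ v, 1 ≤ f v ∧ f v ≤ Fintype.card V) ∧
    ∀ u v, u ≠ v → G.diam + 1 ≤ Nat.dist (f u) (f v) + G.dist u v

/-- girth at least 6, in terms of vertices -/
structure C6 {V : Type*} (G : SimpleGraph V) : Prop where
  no3 : ∀ a b c, G.Adj a b → G.Adj b c → G.Adj c a → False
  no4 : ∀ a b c d, a ≠ b → G.Adj a c → G.Adj b c → G.Adj a d → G.Adj b d → c = d
  no5 : ∀ a b c d e, G.Adj a b → G.Adj b c → G.Adj c d → G.Adj d e → G.Adj e a → False

variable {V : Type*} [Fintype V]

open Classical in
/-- the vertices which have a common neighbour with `v` -/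
noncomputable def PP (G : SimpleGraph V) (v : V) : Finset V :=
  univ.filter fun u => ∃ w, G.Adj u w ∧ G.Adj w v

open Classical in
/-- the neighbours of `v` -/
noncomputable def NN (G : SimpleGraph V) (v : V) : Finset V := univ.filter fun u => G.Adj v u

open Classical in
/-- number of the neighbours of `u` which have a common neighbour with `v` -/
noncomputable def TT (G : SimpleGraph V) (u v : V) : ℕ := (NN G u ∩ PP G v).card

/-- `r`-regular -/
def Rg (G : SimpleGraph V) (r : ℕ) : Prop := ∀ v, (NN G v).card = r

theorem mem_PP {G : SimpleGraph V} {u v : V} : u ∈ PP G v ↔ ∃ w, G.Adj u w ∧ G.Adj w v := by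
  unfold PP
  simp

theorem mem_NN {G : SimpleGraph V} {u v : V} : u ∈ NN G v ↔ G.Adj v u := by
  unfold NN
  simp

end Pool.Agent.Helper40.RGC
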