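import Pool.Agent.Helper40.RGC.Ineq

/-!
# RGC-Dist: girth, distances, diameter

`c6_of_egirth`: girth at least 6 in terms of Mathlib implies `C6`. `dist_lt_six`: a small regular
graph of girth at least 6 has diameter at most 5. `exists_odd_walk`: short odd closed walks.
-/

namespace Pool.Agent.Helper40.RGC

open Finset SimpleGraph

set_option linter.unusedSimpArgs false in
theorem c6_of_egirth {V : Type*} {G : SimpleGraph V} (h : 6 ≤ G.egirth) : C6 G := by
  have h6 : ∀ (a : V) (w : G.Walk a a), w.IsCycle → 6 ≤ w.length := fun a w hw => by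
    have := (SimpleGraph.le_egirth.1 h) a w hw
    exact_mod_cast this
  have no3 : ∀ a b c, G.Adj a b → G.Adj b c → G.Adj c a → False := by
    intro a b c h1 h2 h3
    have hc : (Walk.cons h1 (Walk.cons h2 (Walk.cons h3 Walk.nil))).IsCycle := by
      rw [Walk.cons_isCycle_iff]
      simp [h1.ne, h1.ne', h2.ne, h2.ne', h3.ne, h3.ne']
    have := h6 _ _ hc
    simp at this
  refine ⟨no3, ?_, ?_⟩
  · intro a b c d hab h1 h2 h3 h4
    by_contra hcd
    have hc : (Walk.cons h1 (Walk.cons h2.symm (Walk.cons h4 (Walk.cons h3.symm Walk.nil)))).IsCycle := by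
      rw [Walk.cons_isCycle_iff]
      simp [h1.ne, h1.ne', h2.ne, h2.ne', h3.ne, h3.ne', h4.ne, h4.ne', hab, Ne.symm hab, hcd,
        Ne.symm hcd]
    have := h6 _ _ hc
    simp at this
  · intro a b c d e h1 h2 h3 h4 h5
    have hac : a ≠ c := fun hh => no3 c d e h3 h4 (hh ▸ h5)
    have hbd : b ≠ d := fun hh => no3 d e a h4 h5 (hh ▸ h1)
    have hce : c ≠ e := fun hh => no3 a b c h1 h2 (hh ▸ h5)
    have hda : d ≠ a := fun hh => no3 a b c h1 h2 (hh ▸ h3)
    have heb : e ≠ b := fun hh => no3 b c d h2 h3 (hh ▸ h4)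
    have hc : (Walk.cons h1 (Walk.cons h2 (Walk.cons h3 (Walk.cons h4
        (Walk.cons h5 Walk.nil))))).IsCycle := by
      rw [Walk.cons_isCycle_iff]
      simp [h1.ne, h1.ne', h2.ne, h2.ne', h3.ne, h3.ne', h4.ne, h4.ne', h5.ne, h5.ne', hac,
        hac.symm, hbd, hbd.symm, hce, hce.symm, hda, hda.symm, heb, heb.symm]
    have := h6 _ _ hc
    simp at this

variable {V : Type*} [Fintype V] {G : SimpleGraph V} {r : ℕ}

theorem dist_PP {u v : V} (h : u ∈ PP G v) : G.dist u v ≤ 2 := by
  obtain ⟨w, h1, h2⟩ := mem_PP.1 h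
  exact SimpleGraph.dist_le (Walk.cons h1 (Walk.cons h2 Walk.nil))

theorem dist_adj_le {u v : V} (h : G.Adj u v) : G.dist u v ≤ 1 :=
  SimpleGraph.dist_le (Walk.cons h Walk.nil)

theorem PP_disj (hC : C6 G) {x x' : V} (h : G.Adj x x') : Disjoint (PP G x) (PP G x') := by
  rw [Finset.disjoint_left]
  intro u hu hu'
  obtain ⟨a, h1, h2⟩ := mem_PP.1 hu
  obtain ⟨b, h3, h4⟩ := mem_PP.1 hu'
  exact hC.no5 u a x x' b h1 h2 h h4.symm h3.symm

theorem exists_adj (hr : Rg G r) (h0 : 0 < r) (v : V) : ∃ w, G.Adj v w := by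
  have h1 : 0 < (NN G v).card := by rw [hr v]; exact h0
  obtain ⟨w, hw⟩ := card_pos.1 h1
  exact ⟨w, mem_NN.1 hw⟩

theorem two_P_le (hC : C6 G) (hr : Rg G r) (h0 : 0 < r) (x : V) :
    2 * (r * (r - 1) + 1) ≤ Fintype.card V := by
  classical
  obtain ⟨x', h⟩ := exists_adj hr h0 x
  have h1 := card_union_of_disjoint (PP_disj hC h)
  rw [PP_card hC hr h0, PP_card hC hr h0] at h1
  have h2 := card_le_univ (PP G x ∪ PP G x')
  omega

theorem dist_lt_six (hC : C6 G) (hconn : G.Connected) (hr : Rg G r) (h0 : 0 < r)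
    (hn : Fintype.card V < 3 * (r * (r - 1) + 1)) (x y : V) : G.dist x y ≤ 5 := by
  classical
  by_contra hcon
  push Not at hcon
  obtain ⟨x', h⟩ := exists_adj hr h0 x
  have h1 := card_union_of_disjoint (PP_disj hC h)
  rw [PP_card hC hr h0, PP_card hC hr h0] at h1
  have h2 : Disjoint (PP G x ∪ PP G x') (PP G y) := by
    rw [Finset.disjoint_left]
    intro u hu hu'
    have h3 := dist_PP hu'
    have h4 := hconn.dist_triangle (u := x) (v := u) (w := y)
    have h5 : G.dist x u ≤ 3 := by
      rw [mem_union] at hu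
      rcases hu with hu | hu
      · have := dist_PP (PP_symm.1 hu)
        omega
      · have h6 := dist_PP (PP_symm.1 hu)
        have h7 := hconn.dist_triangle (u := x) (v := x') (w := u)
        have h8 := dist_adj_le h
        omega
    omega
  have h3 := card_union_of_disjoint h2
  rw [h1, PP_card hC hr h0] at h3
  have h4 := card_le_univ (PP G x ∪ PP G x' ∪ PP G y)
  omega

/-- a graph which is not 2-colourable has an odd closed walk of length at most `2 D + 1` -/
theorem exists_odd_walk (hconn : G.Connected) {D : ℕ} (hD : ∀ x y, G.dist x y ≤ D) :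
    (∃ c : V → Bool, ∀ u v, G.Adj u v → c u ≠ c v) ∨
      ∃ (v : V) (w : G.Walk v v), Odd w.length ∧ w.length ≤ 2 * D + 1 := by
  classical
  obtain ⟨x⟩ := hconn.nonempty
  by_cases h : ∀ u v, G.Adj u v → G.dist x u % 2 ≠ G.dist x v % 2
  · left
    refine ⟨fun u => decide (G.dist x u % 2 = 0), fun u v huv hc => h u v huv ?_⟩
    have h1 := decide_eq_decide.1 hc
    omega
  · right
    push Not at h
    obtain ⟨u, v, huv, h1⟩ := h
    obtain ⟨p, hp⟩ := hconn.exists_walk_length_eq_dist x u
    obtain ⟨q, hq⟩ := hconn.exists_walk_length_eq_dist x v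
    refine ⟨x, p.append (Walk.cons huv q.reverse), ?_, ?_⟩
    · rw [Walk.length_append, Walk.length_cons, Walk.length_reverse, hp, hq, Nat.odd_iff]
      omega
    · rw [Walk.length_append, Walk.length_cons, Walk.length_reverse, hp, hq]
      have := hD x u
      have := hD x v
      omega

/-- the bipartition from the odd walk inequality -/
theorem exists_coloring (hC : C6 G) (hconn : G.Connected) (hr : Rg G r) (h0 : 0 < r)
    (hn : 6 * Fintype.card V < 13 * (r * (r - 1) + 1)) :
    ∃ c : V → Bool, ∀ u v, G.Adj u v → c u ≠ c v := by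
  have hD := dist_lt_six hC hconn hr h0 (by omega)
  rcases exists_odd_walk hconn hD with h | ⟨v, w, ho, hl⟩
  · exact h
  · exfalso
    have h1 := odd_walk hC hr h0 w ho
    generalize w.length = L at *
    set P := r * (r - 1) + 1
    set n := Fintype.card V
    have hl' : L ≤ 11 := by omega
    interval_cases L <;> omega

end Pool.Agent.Helper40.RGC
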