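import Pool.Agent.Helper40.RGC.Cons

/-!
# RGC-Fam: the two families of regular graphs of girth 6

`q = |K|`. Family A: all points and lines different from `0`: `q`-regular, `2 (q² - 1)` vertices.
Family B: points with `p.2 ≠ 0`, lines with `l.1 ≠ 0`: `(q - 1)`-regular, `2 q (q - 1)` vertices.
-/

namespace Pool.Agent.Helper40.RGC

open Finset SimpleGraph

variable {K : Type} [Field K] [Fintype K] {X Y : K × K → Prop}

section count

open Classical in
theorem cnt1 {a b : K} (hb : b ≠ 0) (T : Finset K) :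
    ((univ : Finset (K × K)).filter fun l => l.1 ∈ T ∧ a * l.1 + b * l.2 = 1).card = T.card := by
  symm
  refine card_bij (fun t _ => (t, (1 - a * t) / b)) ?_ ?_ ?_
  · intro t ht
    rw [mem_filter]
    refine ⟨mem_univ _, ht, ?_⟩
    show a * t + b * ((1 - a * t) / b) = 1
    field_simp
    ring
  · intro t _ t' _ h
    exact congrArg Prod.fst h
  · intro l hl
    rw [mem_filter] at hl
    refine ⟨l.1, hl.2.1, Prod.ext rfl ?_⟩
    show (1 - a * l.1) / b = l.2
    rw [div_eq_iff hb]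
    linear_combination -hl.2.2

open Classical in
theorem cnt2 {a b : K} (ha : a ≠ 0) (T : Finset K) :
    ((univ : Finset (K × K)).filter fun l => l.2 ∈ T ∧ a * l.1 + b * l.2 = 1).card = T.card := by
  symm
  refine card_bij (fun t _ => ((1 - b * t) / a, t)) ?_ ?_ ?_
  · intro t ht
    rw [mem_filter]
    refine ⟨mem_univ _, ht, ?_⟩
    show a * ((1 - b * t) / a) + b * t = 1
    field_simp
    ring
  · intro t _ t' _ h
    exact congrArg Prod.snd h
  · intro l hl
    rw [mem_filter] at hl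
    refine ⟨l.2, hl.2.1, Prod.ext ?_ rfl⟩
    show (1 - b * l.2) / a = l.1
    rw [div_eq_iff ha]
    linear_combination -hl.2.2

open Classical in
theorem nn_inl [Fintype ({p : K × K // X p} ⊕ {l : K × K // Y l})] (p : {p : K × K // X p}) :
    (NN (PL X Y) (Sum.inl p)).card =
      ((univ : Finset (K × K)).filter fun l => Y l ∧ p.1.1 * l.1 + p.1.2 * l.2 = 1).card := by
  symm
  refine card_bij (fun l hl => Sum.inr ⟨l, (mem_filter.1 hl).2.1⟩) ?_ ?_ ?_
  · intro l hl
    rw [mem_NN]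
    exact (mem_filter.1 hl).2.2
  · intro l hl l' hl' h
    exact congrArg Subtype.val (Sum.inr.inj h)
  · intro v hv
    rw [mem_NN] at hv
    rcases v with v | v
    · exact absurd hv id
    · exact ⟨v.1, mem_filter.2 ⟨mem_univ _, v.2, hv⟩, rfl⟩

open Classical in
theorem nn_inr [Fintype ({p : K × K // X p} ⊕ {l : K × K // Y l})] (l : {l : K × K // Y l}) :
    (NN (PL X Y) (Sum.inr l)).card =
      ((univ : Finset (K × K)).filter fun p => X p ∧ l.1.1 * p.1 + l.1.2 * p.2 = 1).card := by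
  symm
  refine card_bij (fun p hp => Sum.inl ⟨p, (mem_filter.1 hp).2.1⟩) ?_ ?_ ?_
  · intro p hp
    rw [mem_NN]
    show p.1 * l.1.1 + p.2 * l.1.2 = 1
    linear_combination (mem_filter.1 hp).2.2
  · intro p hp p' hp' h
    exact congrArg Subtype.val (Sum.inl.inj h)
  · intro v hv
    rw [mem_NN] at hv
    rcases v with v | v
    · refine ⟨v.1, mem_filter.2 ⟨mem_univ _, v.2, ?_⟩, rfl⟩
      have h1 : v.1.1 * l.1.1 + v.1.2 * l.1.2 = 1 := hv
      linear_combination h1
    · exact absurd hv id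

omit [Field K] in
theorem exists_notMem_of_lt {s : Finset K} (h : s.card < Fintype.card K) : ∃ x, x ∉ s := by
  by_contra hcon
  push Not at hcon
  have h1 : (univ : Finset K) ⊆ s := fun x _ => hcon x
  have h2 := card_le_card h1
  rw [card_univ] at h2
  omega

omit [Fintype K] in
/-- the line through two independent points -/
theorem exists_line {p p' : K × K} (h : p.1 * p'.2 - p.2 * p'.1 ≠ 0) :
    ∃ l : K × K, p.1 * l.1 + p.2 * l.2 = 1 ∧ p'.1 * l.1 + p'.2 * l.2 = 1 ∧
      (p.2 ≠ p'.2 → l.1 ≠ 0) := by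
  refine ⟨((p'.2 - p.2) / (p.1 * p'.2 - p.2 * p'.1), (p.1 - p'.1) / (p.1 * p'.2 - p.2 * p'.1)),
    ?_, ?_, ?_⟩
  · show p.1 * ((p'.2 - p.2) / (p.1 * p'.2 - p.2 * p'.1)) +
      p.2 * ((p.1 - p'.1) / (p.1 * p'.2 - p.2 * p'.1)) = 1
    rw [mul_div_assoc', mul_div_assoc', ← add_div, div_eq_one_iff_eq h]
    ring
  · show p'.1 * ((p'.2 - p.2) / (p.1 * p'.2 - p.2 * p'.1)) +
      p'.2 * ((p.1 - p'.1) / (p.1 * p'.2 - p.2 * p'.1)) = 1
    rw [mul_div_assoc', mul_div_assoc', ← add_div, div_eq_one_iff_eq h]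
    ring
  · intro hne
    exact div_ne_zero (sub_ne_zero.2 hne.symm) h

end count

/-! ## Family A -/

/-- the graph of all points and lines different from `0` -/
abbrev GA (K : Type) [Field K] := PL (K := K) (fun p => p ≠ 0) (fun l => l ≠ 0)

theorem ga_reg [Fintype ({p : K × K // p ≠ 0} ⊕ {l : K × K // l ≠ 0})] :
    Rg (GA K) (Fintype.card K) := by
  classical
  have key : ∀ p : K × K, p ≠ 0 →
      ((univ : Finset (K × K)).filter fun l => l ≠ 0 ∧ p.1 * l.1 + p.2 * l.2 = 1).card =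
        Fintype.card K := by
    intro p hp
    have h0 : ∀ l : K × K, p.1 * l.1 + p.2 * l.2 = 1 → l ≠ 0 := by
      rintro l hl rfl
      simp at hl
    by_cases h2 : p.2 = 0
    · have h1 : p.1 ≠ 0 := fun h1 => hp (Prod.ext h1 h2)
      rw [← card_univ, ← cnt2 (a := p.1) (b := p.2) h1 univ]
      congr 1
      ext l
      simp only [mem_filter, mem_univ, true_and]
      exact ⟨fun h => h.2, fun h => ⟨h0 l h, h⟩⟩
    · rw [← card_univ, ← cnt1 (a := p.1) (b := p.2) h2 univ]
      congr 1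
      ext l
      simp only [mem_filter, mem_univ, true_and]
      exact ⟨fun h => h.2, fun h => ⟨h0 l h, h⟩⟩
  intro v
  rcases v with v | v
  · rw [nn_inl]
    convert key v.1 v.2 using 2
    ext l
    simp only [mem_filter, mem_univ, true_and]
  · rw [nn_inr]
    convert key v.1 v.2 using 2
    ext l
    simp only [mem_filter, mem_univ, true_and]

theorem ga_reach {p p' : {p : K × K // p ≠ 0}} (h : p.1.1 * p'.1.2 - p.1.2 * p'.1.1 ≠ 0) :
    (GA K).Reachable (Sum.inl p) (Sum.inl p') := by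
  obtain ⟨l, h1, h2, -⟩ := exists_line h
  have hl : l ≠ 0 := by
    rintro rfl
    simp at h1
  have e1 : (GA K).Adj (Sum.inl p) (Sum.inr ⟨l, hl⟩) := h1
  have e2 : (GA K).Adj (Sum.inr ⟨l, hl⟩) (Sum.inl p') := h2
  exact e1.reachable.trans e2.reachable

theorem ga_conn : (GA K).Connected := by
  classical
  have hpp : ∀ p p' : {p : K × K // p ≠ 0}, (GA K).Reachable (Sum.inl p) (Sum.inl p') := by
    intro p p'
    by_cases h : p.1.1 * p'.1.2 - p.1.2 * p'.1.1 = 0
    · by_cases h1 : p.1.1 = 0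
      · have h2 : p.1.2 ≠ 0 := fun h2 => p.2 (Prod.ext h1 h2)
        have h3 : p'.1.1 = 0 := by
          rw [h1, zero_mul, zero_sub, neg_eq_zero] at h
          exact (mul_eq_zero.1 h).resolve_left h2
        have h4 : p'.1.2 ≠ 0 := fun h4 => p'.2 (Prod.ext h3 h4)
        let p'' : {p : K × K // p ≠ 0} := ⟨(1, 0), fun hh => one_ne_zero (congrArg Prod.fst hh)⟩
        refine (ga_reach (p' := p'') ?_).trans (ga_reach (p := p'') (p' := p') ?_)
        · show p.1.1 * 0 - p.1.2 * 1 ≠ 0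
          rw [mul_zero, mul_one, zero_sub]
          exact neg_ne_zero.2 h2
        · show 1 * p'.1.2 - 0 * p'.1.1 ≠ 0
          rw [one_mul, zero_mul, sub_zero]
          exact h4
      · have h3 : p'.1.1 ≠ 0 := by
          intro h3
          rw [h3, mul_zero, sub_zero] at h
          exact p'.2 (Prod.ext h3 ((mul_eq_zero.1 h).resolve_left h1))
        let p'' : {p : K × K // p ≠ 0} := ⟨(0, 1), fun hh => one_ne_zero (congrArg Prod.snd hh)⟩
        refine (ga_reach (p' := p'') ?_).trans (ga_reach (p := p'') (p' := p') ?_)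
        · show p.1.1 * 1 - p.1.2 * 0 ≠ 0
          rw [mul_zero, mul_one, sub_zero]
          exact h1
        · show 0 * p'.1.2 - 1 * p'.1.1 ≠ 0
          rw [one_mul, zero_mul, zero_sub]
          exact neg_ne_zero.2 h3
    · exact ga_reach h
  let p0 : {p : K × K // p ≠ 0} := ⟨(1, 0), fun hh => one_ne_zero (congrArg Prod.fst hh)⟩
  rw [SimpleGraph.connected_iff_exists_forall_reachable]
  refine ⟨Sum.inl p0, fun v => ?_⟩
  rcases v with v | v
  · exact hpp p0 v
  · obtain ⟨w, hw⟩ := exists_adj (ga_reg (K := K)) Fintype.card_pos (Sum.inr v)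
    rcases w with w | w
    · exact (hpp p0 w).trans hw.symm.reachable
    · exact absurd hw id

omit [Fintype K] in
theorem ga_egirth : (GA K).egirth = 6 := by
  refine le_antisymm ?_ (egirth_of_c6 pl_c6)
  let a : {p : K × K // p ≠ 0} := ⟨(1, 0), fun hh => one_ne_zero (congrArg Prod.fst hh)⟩
  let b : {p : K × K // p ≠ 0} := ⟨(0, 1), fun hh => one_ne_zero (congrArg Prod.snd hh)⟩
  let c : {p : K × K // p ≠ 0} := ⟨(1, 1), fun hh => one_ne_zero (congrArg Prod.fst hh)⟩
  have hab : a ≠ b := fun hh => one_ne_zero (congrArg (fun p => p.1.1) hh)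
  have hac : a ≠ c := fun hh => zero_ne_one (congrArg (fun p => p.1.2) hh)
  have hbc : b ≠ c := fun hh => zero_ne_one (congrArg (fun p => p.1.1) hh)
  refine egirth_le_six (a := Sum.inl a) (b := Sum.inr c) (c := Sum.inl b) (d := Sum.inr b)
    (e := Sum.inl c) (f := Sum.inr a) ?_ ?_ ?_ ?_ ?_ ?_ ?_
  · show (1 : K) * 1 + 0 * 1 = 1
    ring
  · show (0 : K) * 1 + 1 * 1 = 1
    ring
  · show (0 : K) * 0 + 1 * 1 = 1
    ring
  · show (1 : K) * 0 + 1 * 1 = 1
    ring
  · show (1 : K) * 1 + 1 * 0 = 1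
    ring
  · show (1 : K) * 1 + 0 * 0 = 1
    ring
  · simp [hab, hac, hbc, hab.symm, hbc.symm, hac.symm]

theorem ga_card : Nat.card ({p : K × K // p ≠ 0} ⊕ {l : K × K // l ≠ 0}) =
    2 * (Fintype.card K ^ 2 - 1) := by
  classical
  rw [Nat.card_eq_fintype_card]
  have h1 : Fintype.card {p : K × K // p ≠ 0} = Fintype.card K ^ 2 - 1 := by
    rw [Fintype.card_subtype_compl, Fintype.card_prod, Fintype.card_subtype_eq, sq]
  rw [Fintype.card_sum, h1, two_mul]

/-! ## Family B -/

/-- the graph of all points with `p.2 ≠ 0` and lines with `l.1 ≠ 0` -/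
abbrev GB (K : Type) [Field K] := PL (K := K) (fun p => p.2 ≠ 0) (fun l => l.1 ≠ 0)

theorem gb_reg [Fintype ({p : K × K // p.2 ≠ 0} ⊕ {l : K × K // l.1 ≠ 0})] :
    Rg (GB K) (Fintype.card K - 1) := by
  classical
  have he : ((univ : Finset K).erase 0).card = Fintype.card K - 1 := by
    rw [card_erase_of_mem (mem_univ _), card_univ]
  intro v
  rcases v with v | v
  · rw [nn_inl, ← he, ← cnt1 (a := v.1.1) (b := v.1.2) v.2]
    congr 1
    ext l
    simp
  · rw [nn_inr, ← he, ← cnt2 (a := v.1.1) (b := v.1.2) v.2]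
    congr 1
    ext l
    simp

theorem gb_reach {p p' : {p : K × K // p.2 ≠ 0}} (h : p.1.1 * p'.1.2 - p.1.2 * p'.1.1 ≠ 0)
    (hne : p.1.2 ≠ p'.1.2) : (GB K).Reachable (Sum.inl p) (Sum.inl p') := by
  obtain ⟨l, h1, h2, h3⟩ := exists_line h
  have e1 : (GB K).Adj (Sum.inl p) (Sum.inr ⟨l, h3 hne⟩) := h1
  have e2 : (GB K).Adj (Sum.inr ⟨l, h3 hne⟩) (Sum.inl p') := h2
  exact e1.reachable.trans e2.reachable

theorem gb_conn (hK : 4 ≤ Fintype.card K) : (GB K).Connected := by
  classical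
  have hpp : ∀ p p' : {p : K × K // p.2 ≠ 0}, (GB K).Reachable (Sum.inl p) (Sum.inl p') := by
    intro p p'
    obtain ⟨y, hy⟩ := exists_notMem_of_lt (s := ({0, p.1.2, p'.1.2} : Finset K))
      (card_le_three.trans_lt (by omega))
    rw [mem_insert, mem_insert, mem_singleton, not_or, not_or] at hy
    obtain ⟨x, hx⟩ := exists_notMem_of_lt
      (s := ({p.1.1 * y / p.1.2, p'.1.1 * y / p'.1.2} : Finset K))
      (card_le_two.trans_lt (by omega))
    rw [mem_insert, mem_singleton, not_or] at hx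
    let p'' : {p : K × K // p.2 ≠ 0} := ⟨(x, y), hy.1⟩
    refine (gb_reach (p' := p'') ?_ ?_).trans (gb_reach (p := p'') (p' := p') ?_ ?_)
    · show p.1.1 * y - p.1.2 * x ≠ 0
      intro h
      apply hx.1
      rw [eq_div_iff p.2]
      linear_combination -h
    · exact fun h => hy.2.1 h.symm
    · show x * p'.1.2 - y * p'.1.1 ≠ 0
      intro h
      apply hx.2
      rw [eq_div_iff p'.2]
      linear_combination h
    · exact hy.2.2
  let p0 : {p : K × K // p.2 ≠ 0} := ⟨(0, 1), one_ne_zero⟩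
  rw [SimpleGraph.connected_iff_exists_forall_reachable]
  refine ⟨Sum.inl p0, fun v => ?_⟩
  rcases v with v | v
  · exact hpp p0 v
  · obtain ⟨w, hw⟩ := exists_adj (gb_reg (K := K)) (by omega) (Sum.inr v)
    rcases w with w | w
    · exact (hpp p0 w).trans hw.symm.reachable
    · exact absurd hw id

theorem gb_egirth (hK : 4 ≤ Fintype.card K) : (GB K).egirth = 6 := by
  classical
  refine le_antisymm ?_ (egirth_of_c6 pl_c6)
  obtain ⟨t, ht⟩ := exists_notMem_of_lt (s := ({0, 1} : Finset K))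
    (card_le_two.trans_lt (by omega))
  obtain ⟨s, hs⟩ := exists_notMem_of_lt (s := ({0, 1, t} : Finset K))
    (card_le_three.trans_lt (by omega))
  rw [mem_insert, mem_singleton, not_or] at ht
  rw [mem_insert, mem_insert, mem_singleton, not_or, not_or] at hs
  let a : {p : K × K // p.2 ≠ 0} := ⟨(0, 1), one_ne_zero⟩
  let c : {p : K × K // p.2 ≠ 0} := ⟨(1, t), ht.1⟩
  let e : {p : K × K // p.2 ≠ 0} := ⟨(1, s), hs.1⟩
  let b : {l : K × K // l.1 ≠ 0} := ⟨(1 - t, 1), sub_ne_zero.2 (Ne.symm ht.2)⟩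
  let d : {l : K × K // l.1 ≠ 0} := ⟨(1, 0), one_ne_zero⟩
  let f : {l : K × K // l.1 ≠ 0} := ⟨(1 - s, 1), sub_ne_zero.2 (Ne.symm hs.2.1)⟩
  have hac : a ≠ c := fun hh => zero_ne_one (congrArg (fun p => p.1.1) hh)
  have hae : a ≠ e := fun hh => zero_ne_one (congrArg (fun p => p.1.1) hh)
  have hce : c ≠ e := fun hh => hs.2.2 (congrArg (fun p => p.1.2) hh).symm
  have hbd : b ≠ d := fun hh => one_ne_zero (congrArg (fun p => p.1.2) hh)
  have hdf : d ≠ f := fun hh => zero_ne_one (congrArg (fun p => p.1.2) hh)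
  have hbf : b ≠ f := fun hh => by
    have h1 : (1 : K) - t = 1 - s := congrArg (fun p => p.1.1) hh
    exact hs.2.2 (by linear_combination h1)
  refine egirth_le_six (a := Sum.inl a) (b := Sum.inr b) (c := Sum.inl c) (d := Sum.inr d)
    (e := Sum.inl e) (f := Sum.inr f) ?_ ?_ ?_ ?_ ?_ ?_ ?_
  · show (0 : K) * (1 - t) + 1 * 1 = 1
    ring
  · show (1 : K) * (1 - t) + t * 1 = 1
    ring
  · show (1 : K) * 1 + t * 0 = 1
    ring
  · show (1 : K) * 1 + s * 0 = 1
    ring
  · show (1 : K) * (1 - s) + s * 1 = 1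
    ring
  · show (0 : K) * (1 - s) + 1 * 1 = 1
    ring
  · simp [hac, hae, hce, hbd, hdf, hbf]

theorem gb_card : Nat.card ({p : K × K // p.2 ≠ 0} ⊕ {l : K × K // l.1 ≠ 0}) =
    2 * (Fintype.card K * (Fintype.card K - 1)) := by
  classical
  rw [Nat.card_eq_fintype_card]
  have he : ((univ : Finset K).erase 0).card = Fintype.card K - 1 := by
    rw [card_erase_of_mem (mem_univ _), card_univ]
  have h1 : Fintype.card {p : K × K // p.2 ≠ 0} = Fintype.card K * (Fintype.card K - 1) := by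
    rw [Fintype.card_subtype, ← he, ← card_univ (α := K), ← card_product]
    congr 1
    ext p
    simp
  have h2 : Fintype.card {p : K × K // p.1 ≠ 0} = Fintype.card K * (Fintype.card K - 1) := by
    rw [mul_comm, Fintype.card_subtype, ← he, ← card_univ (α := K), ← card_product]
    congr 1
    ext p
    simp
  rw [Fintype.card_sum, h1, h2, two_mul]

end Pool.Agent.Helper40.RGC
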