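import Pool.Agent.Helper40.RGC.Count

/-!
# RGC-Ineq: odd closed walks in regular graphs of girth at least 6

If a regular graph of girth at least 6 with `n` vertices has a closed walk of odd length `L`, then
`(L + 2) n0 ≤ (L + 1) n`, where `n0 = 2 (r (r - 1) + 1)` is the Moore bound.
-/

namespace Pool.Agent.Helper40.RGC

open Finset

variable {V : Type*} [Fintype V] {G : SimpleGraph V} {r : ℕ}

theorem walk_bound (hC : C6 G) (hr : Rg G r) (h0 : 0 < r) {a b : V} (w : G.Walk a b) :
    ∃ S : V → ℤ,
      (∑ u, S u = w.length * ((r : ℤ) * (Fintype.card V - 2 * (r * (r - 1) + 1 : ℕ)))) ∧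
      ∀ u, (Even w.length → |(TT G u a : ℤ) - TT G u b| ≤ S u) ∧
        (Odd w.length → |(TT G u a : ℤ) + TT G u b - r| ≤ S u) := by
  induction w with
  | nil => exact ⟨fun _ => 0, by simp, fun u => ⟨fun _ => by simp, fun h => by simp at h⟩⟩
  | @cons a c b h w ih =>
    obtain ⟨S, h1, h2⟩ := ih
    refine ⟨fun u => S u + (r - TT G u a - TT G u c), ?_, fun u => ⟨fun he => ?_, fun ho => ?_⟩⟩
    · have ha := TT_sum hr a
      have hc := TT_sum hr c
      rw [PP_card hC hr h0] at ha hc
      have ha' : ∑ u, (TT G u a : ℤ) = r * (r * (r - 1) + 1 : ℕ) := by exact_mod_cast ha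
      have hc' : ∑ u, (TT G u c : ℤ) = r * (r * (r - 1) + 1 : ℕ) := by exact_mod_cast hc
      rw [sum_add_distrib, h1, sum_sub_distrib, sum_sub_distrib, ha', hc', sum_const, card_univ,
        nsmul_eq_mul, SimpleGraph.Walk.length_cons]
      push_cast
      ring
    · rw [SimpleGraph.Walk.length_cons] at he
      have ho : Odd w.length := by
        rw [← Nat.not_even_iff_odd]
        intro h3
        exact (Nat.not_even_iff_odd.2 h3.add_one) he
      have h3 := (h2 u).2 ho
      have h4 := TT_add hC hr u h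
      have h4' : (TT G u a : ℤ) + TT G u c ≤ r := by exact_mod_cast h4
      rw [abs_le] at h3 ⊢
      constructor <;> linarith
    · rw [SimpleGraph.Walk.length_cons] at ho
      have he : Even w.length := by
        rw [← Nat.not_odd_iff_even]
        intro h3
        exact (Nat.not_odd_iff_even.2 h3.add_one) ho
      have h3 := (h2 u).1 he
      have h4 := TT_add hC hr u h
      have h4' : (TT G u a : ℤ) + TT G u c ≤ r := by exact_mod_cast h4
      rw [abs_le] at h3 ⊢
      constructor <;> linarith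

/-- the inequality for odd closed walks -/
theorem odd_walk (hC : C6 G) (hr : Rg G r) (h0 : 0 < r) {v : V} (w : G.Walk v v)
    (ho : Odd w.length) :
    (w.length + 2) * (2 * (r * (r - 1) + 1)) ≤ (w.length + 1) * Fintype.card V := by
  classical
  obtain ⟨S, h1, h2⟩ := walk_bound hC hr h0 w
  have h3 : ∀ u, |2 * (TT G u v : ℤ) - r| ≤ S u := fun u => by
    have := (h2 u).2 ho
    rwa [← two_mul] at this
  have h4 : ∑ u, |2 * (TT G u v : ℤ) - r| ≤ ∑ u, S u := sum_le_sum fun u _ => h3 u
  have h5 : ∑ u, (if u ∈ PP G v then (2 * (r : ℤ)) else 0) + ∑ u, (2 * (TT G u v : ℤ) - r) ≤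
      ∑ u, |2 * (TT G u v : ℤ) - r| := by
    rw [← sum_add_distrib]
    refine sum_le_sum fun u _ => ?_
    by_cases hu : u ∈ PP G v
    · rw [if_pos hu, TT_zero hC hu]
      have : (0 : ℤ) ≤ r := Nat.cast_nonneg r
      rw [Nat.cast_zero, mul_zero, zero_sub, abs_neg, abs_of_nonneg this]
      linarith
    · rw [if_neg hu, zero_add]
      exact le_abs_self _
  have h6 : ∑ u, (TT G u v : ℤ) = r * (r * (r - 1) + 1 : ℕ) := by
    have := TT_sum hr v
    rw [PP_card hC hr h0] at this
    exact_mod_cast this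
  have h7 : ∑ u, (if u ∈ PP G v then (2 * (r : ℤ)) else 0) = (r * (r - 1) + 1 : ℕ) * (2 * r) := by
    rw [← sum_filter, sum_const, nsmul_eq_mul]
    congr 2
    rw [← PP_card hC hr h0 v]
    congr 1
    ext u
    simp
  rw [h7, sum_sub_distrib, ← mul_sum, h6, sum_const, card_univ, nsmul_eq_mul] at h5
  rw [h1] at h4
  set P : ℕ := r * (r - 1) + 1 with hP
  have hr0 : (0 : ℤ) < r := by exact_mod_cast h0
  have h8 : (r : ℤ) * (4 * P - Fintype.card V) ≤
      r * (w.length * (Fintype.card V - 2 * P)) := by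
    have h9 := h5.trans h4
    nlinarith [h9]
  have h9 := le_of_mul_le_mul_left h8 hr0
  have h10 : ((w.length + 2 : ℕ) : ℤ) * (2 * (P : ℕ)) ≤ (w.length + 1 : ℕ) * Fintype.card V := by
    push_cast
    linarith
  exact_mod_cast h10

end Pool.Agent.Helper40.RGC
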